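import Pool.Agent.Y586.LW.Local
import Pool.Agent.Results.MP_195fab_gt.InfiniteCardinality

/-!
# Function spaces have the least character in their `t`-equivalence class
-/

set_option autoImplicit false

open Set Topology Filter Cardinal

namespace Pool.Agent.Results.MP_195fab_gt.LeastCharacter

universe u v w

/-- `C_p(Z)`: the set of continuous functions `Z → ℝ` with the topology of pointwise convergence,
i.e. the subspace topology from the product `Z → ℝ`. -/
abbrev Cp (Z : Type*) [TopologicalSpace Z] := {f : Z → ℝ // Continuous f}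

/-- `C_p(F | X)` for a subset `F` of `X`: the functions on `F` which extend to continuous functions
on `X`, with the topology of pointwise convergence. For `F = X` this is `C_p(X)`. -/
abbrev CpR {X : Type*} [TopologicalSpace X] (F : Set X) :=
  {b : F → ℝ // ∃ f : X → ℝ, Continuous f ∧ f ∘ ((↑) : F → X) = b}

/-- Every point of `A` has a local base indexed by `I` (repetitions allowed). -/
def LocalBases (A : Type*) [TopologicalSpace A] (I : Type*) : Prop :=
  ∀ a : A, ∃ u : I → Set A, (𝓝 a).HasBasis (fun _ => True) u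

/-- homeomorphic spaces have homeomorphic function spaces -/
def cpCongr {A B : Type*} [TopologicalSpace A] [TopologicalSpace B] (φ : A ≃ₜ B) :
    Cp A ≃ₜ Cp B where
  toFun g := ⟨fun b => g.1 (φ.symm b), g.2.comp φ.symm.continuous⟩
  invFun g := ⟨fun a => g.1 (φ a), g.2.comp φ.continuous⟩
  left_inv g := by ext a; simp
  right_inv g := by ext a; simp
  continuous_toFun := by
    refine Continuous.subtype_mk (continuous_pi fun b => ?_) _
    exact (continuous_apply (φ.symm b)).comp continuous_subtype_val
  continuous_invFun := by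
    refine Continuous.subtype_mk (continuous_pi fun a => ?_) _
    exact (continuous_apply (φ a)).comp continuous_subtype_val

/-- restriction to the whole space does nothing -/
def cpUniv (X : Type*) [TopologicalSpace X] : Cp X ≃ₜ CpR (Set.univ : Set X) where
  toFun f := ⟨fun x => f.1 x, f.1, f.2, rfl⟩
  invFun f := ⟨fun x => f.1 ⟨x, trivial⟩, by
    obtain ⟨g, hg, hgf⟩ := f.2
    rw [← hgf]
    exact hg⟩
  left_inv f := rfl
  right_inv f := rfl
  continuous_toFun := by
    refine Continuous.subtype_mk (continuous_pi fun x => ?_) _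
    exact (continuous_apply (x : X)).comp continuous_subtype_val
  continuous_invFun := by
    refine Continuous.subtype_mk (continuous_pi fun x => ?_) _
    exact (continuous_apply (⟨x, trivial⟩ : (Set.univ : Set X))).comp continuous_subtype_val

/-- The cardinality estimate for an arbitrary space which is `t`-equivalent to `C_p(F | X)`. -/
theorem embed {X : Type u} {A : Type v} [TopologicalSpace X] [T35Space X] [TopologicalSpace A]
    [T35Space A] (F : Set X) (h : Cp A ≃ₜ Cp (CpR F)) (I : Type w) [Infinite I]
    (hA : LocalBases A I) : Nonempty (F ↪ I) := by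
  classical
  choose u hu using hA
  obtain ⟨D, hD⟩ := Pool.Agent.Y586.LW.cover_of_homeo ((↑) : F → X) Subtype.val_injective u
    (fun a => (hu a).eq_iInf) h
  choose p hp using hD
  let f : F → Finset I × ℕ := fun x => (p x, ((D (p x)).equivFin ⟨x, hp x⟩ : ℕ))
  have hf : Function.Injective f := by
    intro x y hxy
    have h1 : p x = p y := congrArg Prod.fst hxy
    have h2 : ((D (p x)).equivFin ⟨x, hp x⟩ : ℕ) = ((D (p y)).equivFin ⟨y, hp y⟩ : ℕ) :=
      congrArg Prod.snd hxy
    have hy : y ∈ D (p x) := h1 ▸ hp y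
    have h3 : ∀ (q : Finset I) (hq : y ∈ D q), q = p x →
        ((D q).equivFin ⟨y, hq⟩ : ℕ) = ((D (p x)).equivFin ⟨y, hy⟩ : ℕ) := by
      rintro q hq rfl
      rfl
    rw [h3 (p y) (hp y) h1.symm] at h2
    have h4 := (D (p x)).equivFin.injective (Fin.ext h2)
    exact congrArg Subtype.val h4
  have h5 : #(Finset I × ℕ) = #I := by
    simp only [mk_prod, lift_id, mk_finset_of_infinite, mk_nat, lift_aleph0, lift_uzero]
    rw [mul_aleph0_eq (aleph0_le_mk I)]
  obtain ⟨e'⟩ := Cardinal.eq.1 h5
  exact ⟨⟨fun x => e' (f x), fun x y hxy => hf (e'.injective hxy)⟩⟩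

/-- The points of `C_p(X)` have local bases indexed by `X`, for infinite `X`. -/
theorem localBases_Cp (X : Type u) [TopologicalSpace X] [Infinite X] : LocalBases (Cp X) X := by
  classical
  intro g
  have h5 : #X = #(Finset X × ℕ) := by
    simp only [mk_prod, lift_id, mk_finset_of_infinite, mk_nat, lift_aleph0, lift_uzero]
    rw [mul_aleph0_eq (aleph0_le_mk X)]
  obtain ⟨e⟩ := Cardinal.eq.1 h5
  have hb : (𝓝 g).HasBasis (fun _ : Finset X × ℕ => True)
      (fun p => {g' : Cp X | ∀ a ∈ p.1, |g'.1 a - g.1 a| < 1 / ((p.2 : ℝ) + 1)}) := by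
    refine ⟨fun U => ⟨fun hU => ?_, ?_⟩⟩
    · obtain ⟨G, n, hG⟩ := Pool.Agent.Helper126.exists_finset_nhds g hU
      exact ⟨(G, n), trivial, fun g' hg' => hG g' hg'⟩
    · rintro ⟨p, -, hp⟩
      exact Filter.mem_of_superset (Pool.Agent.Helper126.nhds_of_finset g p.1 p.2) hp
  exact ⟨_, hb.comp_surjective e.surjective⟩

/-- **Function spaces have the least character in their `t`-equivalence class.**
(1) Let `F` be a subset of a Tychonoff space `X` (for instance `F = X`, where
`C_p(F | X) = C_p(X)`), and let `A` be any Tychonoff space such that `C_p(A)` and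
`C_p(C_p(F | X))` are homeomorphic. If all points of `A` have local bases of cardinality at most
the infinite cardinal `|I|`, then `|F| ≤ |I|`.
(2) For infinite `X` all points of `C_p(X)` have local bases of cardinality `|X|`, and if `C_p(A)`
and `C_p(C_p(X))` are homeomorphic and all points of `A` have local bases of cardinality at most
`|I|`, then `|X| ≤ |I|`.
(3) If `C_p(C_p(X))` and `C_p(C_p(Y))` are homeomorphic, then `X` is finite if and only if `Y` is,
and if `Y` is infinite then `X` and `Y` have the same cardinality. -/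
theorem result :
    (∀ (X : Type u) (A : Type v) (I : Type w) [TopologicalSpace X] [T35Space X]
      [TopologicalSpace A] [T35Space A] [Infinite I] (F : Set X),
      Nonempty (Cp A ≃ₜ Cp (CpR F)) → LocalBases A I → Nonempty (F ↪ I)) ∧
    (∀ (X : Type u) [TopologicalSpace X] [T35Space X] [Infinite X], LocalBases (Cp X) X ∧
      ∀ (A : Type v) (I : Type w) [TopologicalSpace A] [T35Space A] [Infinite I],
        Nonempty (Cp A ≃ₜ Cp (Cp X)) → LocalBases A I → Nonempty (X ↪ I)) ∧
    ∀ (X : Type u) (Y : Type v) [TopologicalSpace X] [T35Space X] [TopologicalSpace Y]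
      [T35Space Y], Nonempty (Cp (Cp X) ≃ₜ Cp (Cp Y)) →
      (Finite X ↔ Finite Y) ∧ (Infinite Y → Nonempty (X ≃ Y)) := by
  refine ⟨fun X A I _ _ _ _ _ F ⟨h⟩ hA => embed F h I hA, fun X _ _ _ => ⟨localBases_Cp X,
    fun A I _ _ _ ⟨h⟩ hA => ?_⟩,
    fun X Y _ _ _ _ h => Pool.Agent.Results.MP_195fab_gt.InfiniteCardinality.result X Y h⟩
  obtain ⟨f⟩ := embed (Set.univ : Set X) (h.trans (cpCongr (cpUniv X))) I hA
  exact ⟨(Equiv.Set.univ X).symm.toEmbedding.trans f⟩

end Pool.Agent.Results.MP_195fab_gt.LeastCharacter
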